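import Pool.Agent.W902.C6.Stm

set_option autoImplicit false

/-!
All triples of words are realised.
-/

open Pool.Agent.H800R3 Filter

namespace Pool.Agent.W358.C6.Real

open Pool.Agent.W902.C6

theorem lay (r : ℝ) (u : List Lt) : ∀ l : ℝ, l < r → ∃ (X : Finset ℝ) (lam : ℝ → Lt),
    (∀ x ∈ X, l < x ∧ x < r) ∧ (X.sort (· ≤ ·)).map lam = u := by
  classical
  induction u with
  | nil =>
    intro l _
    exact ⟨∅, fun _ => (false, false), by simp, by simp⟩
  | cons h t ih =>
    intro l hl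
    obtain ⟨X, lam, h1, h2⟩ := ih ((l + r) / 2) (by linarith)
    have hx : (l + r) / 2 ∉ X := fun hx => lt_irrefl _ (h1 _ hx).1
    refine ⟨insert ((l + r) / 2) X, Function.update lam ((l + r) / 2) h, ?_, ?_⟩
    · intro x hx
      rcases Finset.mem_insert.mp hx with rfl | hx
      · constructor <;> linarith
      · exact ⟨by linarith [(h1 x hx).1], (h1 x hx).2⟩
    · rw [Finset.sort_insert (r := (· ≤ ·)) (fun b hb => (h1 b hb).1.le) hx, List.map_cons,
        Function.update_self]
      congr 1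
      rw [← h2]
      refine List.map_congr_left fun x hx' => ?_
      have hx2 : x ∈ X := (Finset.mem_sort _).mp hx'
      have hne : x ≠ (l + r) / 2 := fun e => hx (e ▸ hx2)
      exact Function.update_of_ne hne _ _

theorem main : S_real := by
  classical
  intro u v w hu hv hw
  obtain ⟨X1, lam1, a1, b1⟩ := lay 0 u (-1) (by norm_num)
  obtain ⟨X2, lam2, a2, b2⟩ := lay 1 v 0 (by norm_num)
  obtain ⟨X3, lam3, a3, b3⟩ := lay 2 w 1 (by norm_num)
  set lam : ℝ → Lt := fun x => if x < 0 then lam1 x else if x < 1 then lam2 x else lam3 x with hlam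
  have c1 : ∀ x ∈ X1, lam x = lam1 x := fun x hx => by
    rw [hlam]; simp only; rw [if_pos (a1 x hx).2]
  have c2 : ∀ x ∈ X2, lam x = lam2 x := fun x hx => by
    rw [hlam]; simp only
    rw [if_neg (not_lt.mpr (a2 x hx).1.le), if_pos (a2 x hx).2]
  have c3 : ∀ x ∈ X3, lam x = lam3 x := fun x hx => by
    rw [hlam]; simp only
    rw [if_neg (not_lt.mpr (by linarith [(a3 x hx).1])), if_neg (not_lt.mpr (a3 x hx).1.le)]
  set X : Finset ℝ := X1 ∪ (X2 ∪ X3) with hX
  have mX : ∀ x, x ∈ X ↔ x ∈ X1 ∨ x ∈ X2 ∨ x ∈ X3 := by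
    intro x; rw [hX, Finset.mem_union, Finset.mem_union]
  have hnz : ∀ x ∈ X, lam x ≠ (false, false) := by
    intro x hx
    rcases (mX x).mp hx with h | h | h
    · rw [c1 x h]
      refine hu _ ?_
      rw [← b1]
      exact List.mem_map_of_mem ((Finset.mem_sort _).mpr h)
    · rw [c2 x h]
      refine hv _ ?_
      rw [← b2]
      exact List.mem_map_of_mem ((Finset.mem_sort _).mpr h)
    · rw [c3 x h]
      refine hw _ ?_
      rw [← b3]
      exact List.mem_map_of_mem ((Finset.mem_sort _).mpr h)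
  have h0 : (0 : ℝ) ∉ X := by
    intro h
    rcases (mX 0).mp h with h | h | h
    · exact lt_irrefl _ (a1 0 h).2
    · exact lt_irrefl _ (a2 0 h).1
    · linarith [(a3 0 h).1]
  have h1 : (1 : ℝ) ∉ X := by
    intro h
    rcases (mX 1).mp h with h | h | h
    · linarith [(a1 1 h).2]
    · exact lt_irrefl _ (a2 1 h).2
    · exact lt_irrefl _ (a3 1 h).1
  set A : Finset ℝ := X.filter (fun x => (lam x).1 = true) with hA
  set T : Finset ℝ := (X.filter (fun x => (lam x).2 = true)).image (fun x => x⁻¹) with hT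
  have mA : ∀ x, x ∈ A ↔ x ∈ X ∧ (lam x).1 = true := fun x => by rw [hA, Finset.mem_filter]
  have mT : ∀ x, x⁻¹ ∈ T ↔ x ∈ X ∧ (lam x).2 = true := by
    intro x
    rw [hT, Finset.mem_image]
    constructor
    · rintro ⟨y, hy, he⟩
      have : y = x := inv_injective he
      rw [← this]; exact Finset.mem_filter.mp hy
    · intro h
      exact ⟨x, Finset.mem_filter.mpr h, rfl⟩
  have mT' : ∀ t, t ∈ T ↔ t⁻¹ ∈ X ∧ (lam t⁻¹).2 = true := by
    intro t
    have := mT t⁻¹
    rwa [inv_inv] at this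
  have hlett : ∀ x ∈ X, lett A T x = lam x := by
    intro x hx
    unfold lett
    have e1 : (x ∈ A) ↔ (lam x).1 = true := by rw [mA]; exact ⟨fun h => h.2, fun h => ⟨hx, h⟩⟩
    have e2 : (x⁻¹ ∈ T) ↔ (lam x).2 = true := by rw [mT]; exact ⟨fun h => h.2, fun h => ⟨hx, h⟩⟩
    ext <;> simp [e1, e2]
  have hpos : posns A T = X := by
    ext x
    unfold posns
    rw [Finset.mem_union, Finset.mem_image, mA]
    constructor
    · rintro (h | ⟨t, ht, rfl⟩)
      · exact h.1
      · exact ((mT' t).mp ht).1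
    · intro hx
      have hne := hnz x hx
      by_cases hc : (lam x).1 = true
      · exact Or.inl ⟨hx, hc⟩
      · right
        refine ⟨x⁻¹, (mT x).mpr ⟨hx, ?_⟩, inv_inv x⟩
        by_contra hd
        apply hne
        rw [Bool.not_eq_true] at hc hd
        exact Prod.ext hc hd
  have hword : ∀ (I : Set ℝ) (Y : Finset ℝ) (lm : ℝ → Lt), (∀ x, x ∈ X ∧ x ∈ I ↔ x ∈ Y) →
      (∀ x ∈ Y, lam x = lm x) → word A T I = (Y.sort (· ≤ ·)).map lm := by
    intro I Y lm hY hl
    unfold word
    have e1 : (posns A T).filter (fun x => x ∈ I) = Y := by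
      ext x
      rw [Finset.mem_filter, hpos]
      exact hY x
    rw [e1]
    refine List.map_congr_left fun x hx => ?_
    have hx2 : x ∈ Y := (Finset.mem_sort _).mp hx
    rw [hlett x ((hY x).mpr hx2).1, hl x hx2]
  refine ⟨A, T, ?_, ?_, ?_, ?_, ?_, ?_, ?_⟩
  · rw [mA]; exact fun h => h0 h.1
  · rw [mT', inv_zero]; exact fun h => h0 h.1
  · rw [mA]; exact fun h => h1 h.1
  · rw [mT', inv_one]; exact fun h => h1 h.1
  · rw [hword (Set.Iio 0) X1 lam1 ?_ c1, b1]
    intro x
    rw [mX, Set.mem_Iio]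
    constructor
    · rintro ⟨h | h | h, hx⟩
      · exact h
      · linarith [(a2 x h).1]
      · linarith [(a3 x h).1]
    · intro h; exact ⟨Or.inl h, (a1 x h).2⟩
  · rw [hword (Set.Ioo 0 1) X2 lam2 ?_ c2, b2]
    intro x
    rw [mX, Set.mem_Ioo]
    constructor
    · rintro ⟨h | h | h, hx⟩
      · linarith [(a1 x h).2]
      · exact h
      · linarith [(a3 x h).1]
    · intro h; exact ⟨Or.inr (Or.inl h), a2 x h⟩
  · rw [hword (Set.Ioi 1) X3 lam3 ?_ c3, b3]
    intro x
    rw [mX, Set.mem_Ioi]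
    constructor
    · rintro ⟨h | h | h, hx⟩
      · linarith [(a1 x h).2]
      · linarith [(a2 x h).2]
      · exact h
    · intro h; exact ⟨Or.inr (Or.inr h), (a3 x h).1⟩

end Pool.Agent.W358.C6.Real
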